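import Pool.Agent.P.MP_b2ceab_nt.Main

/-! The conjecture holds for almost all `x`, already from the levels `n = 1, 2, 3`. -/

namespace Pool.Agent.Results.MP_b2ceab_nt.AlmostAll

open Filter Topology

theorem result : Tendsto (fun X : ℕ =>
    (Set.ncard {x : ℕ | 1 ≤ x ∧ x ≤ X ∧ ∃ y : ℕ, 0 < y ∧ y ≠ x ∧
      ∀ n : ℕ, 1 ≤ n → n ≤ 3 → ∀ p : ℕ, p.Prime →
        ((p : ℤ) ∣ (x : ℤ) ^ 2 ^ n - 1 ↔ (p : ℤ) ∣ (y : ℤ) ^ 2 ^ n - 1)} : ℝ) / X)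
    atTop (𝓝 0) := by
  refine Pool.Agent.P.MP_b2ceab_nt.final.congr fun X => ?_
  rw [← Set.ncard_coe_finset]
  congr 3
  ext x
  simp only [Finset.coe_filter, Finset.mem_Icc, Set.mem_ofPred_eq, and_assoc]
  rfl

end Pool.Agent.Results.MP_b2ceab_nt.AlmostAll
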