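import Pool.Agent.P.MP_b2ceab_nt.XE.All

/-! At most `C * X ^ ε` integers `x ≤ X` have a partner `y ≠ x`. -/

namespace Pool.Agent.Results.MP_b2ceab_nt.FewExceptions

theorem result : ∀ ε : ℝ, 0 < ε → ∃ (n₀ : ℕ) (C : ℝ), ∀ X : ℕ,
    (Set.ncard {x : ℕ | 1 ≤ x ∧ x ≤ X ∧ ∃ y : ℕ, 0 < y ∧ y ≠ x ∧
      ∀ n : ℕ, 1 ≤ n → n ≤ n₀ → ∀ p : ℕ, p.Prime →
        ((p : ℤ) ∣ (x : ℤ) ^ 2 ^ n - 1 ↔ (p : ℤ) ∣ (y : ℤ) ^ 2 ^ n - 1)} : ℝ) ≤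
      C * (X : ℝ) ^ ε :=
  Pool.Agent.P.MP_b2ceab_nt.XE.all_FIN

end Pool.Agent.Results.MP_b2ceab_nt.FewExceptions
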